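import Pool.Agent.Helper64.Rig.Basics

/-!
# Rigid curves in projective space: the packet Quot (MP_148db9_ag)
-/

namespace Pool.Agent.Helper27.Rig

open Pool.Agent.Helper64.Rig MvPolynomial Module

variable {K : Type} [Field K] [Algebra ℂ K] {ζ : ℂ} {x : Jx → K}

/-- Polynomial relations hold at the points of the Fermat cone. -/
theorem eval_eq (hKer : StmtKer) (h : Cov ζ x) {G H : MvPolynomial (Fin 3) ℂ}
    (hG : aeval (pr x) G = aeval (pr x) H) {v : Fin 3 → ℂ} (hv : ∑ i, v i ^ 5 = 0) :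
    eval v G = eval v H := by
  have h1 : FF ∣ G - H := (hKer K ζ x h).1 _ (by rw [map_sub, hG, sub_self])
  obtain ⟨Q, hQ⟩ := h1
  have h2 : eval v (G - H) = 0 := by
    rw [hQ, map_mul]
    have : eval v FF = 0 := by
      simp only [FF, map_sum, map_pow, eval_X]
      exact hv
    rw [this, zero_mul]
  rw [map_sub] at h2
  exact sub_eq_zero.1 h2

/-- The linear form with the coefficients `L`. -/
noncomputable def lf (L : Fin 3 → ℂ) : MvPolynomial (Fin 3) ℂ := ∑ i, C (L i) * X i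

theorem eval_lf (L v : Fin 3 → ℂ) : eval v (lf L) = ∑ i, L i * v i := by
  simp [lf]

theorem aeval_lf (L : Fin 3 → ℂ) :
    aeval (pr x) (lf L) = ∑ i, algebraMap ℂ K (L i) * pr x i := by
  simp [lf]

theorem proportional {v v' : Fin 3 → ℂ} (hv : v ≠ 0) (h : ∀ i j, v i * v' j = v j * v' i) :
    ∃ t : ℂ, v' = t • v := by
  obtain ⟨i, hi⟩ := Function.ne_iff.1 hv
  refine ⟨v' i / v i, ?_⟩
  funext j
  have h1 := h i j
  have hi' : v i ≠ 0 := hi
  rw [Pi.smul_apply, smul_eq_mul, div_mul_eq_mul_div, eq_div_iff hi']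
  linear_combination h1

theorem line_of_indep {L L' : Fin 3 → ℂ}
    (hind : LinearIndependent ℂ
      ![∑ i, algebraMap ℂ K (L i) * pr x i, ∑ i, algebraMap ℂ K (L' i) * pr x i]) :
    ∃ Q : Fin 3 → ℂ, ∀ v : Fin 3 → ℂ, ∑ i, L i * v i = 0 → ∑ i, L' i * v i = 0 →
      ∃ t : ℂ, v = t • Q := by
  refine ⟨![L 1 * L' 2 - L 2 * L' 1, L 2 * L' 0 - L 0 * L' 2, L 0 * L' 1 - L 1 * L' 0], ?_⟩
  intro v e1 e2
  apply proportional
  · intro h0
    have h00 := congrFun h0 0
    have h01 := congrFun h0 1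
    have h02 := congrFun h0 2
    simp only [Matrix.cons_val_zero, Matrix.cons_val_one, Pi.zero_apply,
      Matrix.cons_val] at h00 h01 h02
    have hc : ∀ i j, L i * L' j = L j * L' i := by
      intro i j
      fin_cases i <;> fin_cases j <;> simp only [Fin.zero_eta, Fin.mk_one, Fin.reduceFinMk,
        Fin.isValue]
      · linear_combination h02
      · linear_combination -h01
      · linear_combination -h02
      · linear_combination h00
      · linear_combination h01
      · linear_combination -h00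
    rw [LinearIndependent.pair_iff] at hind
    have hz : ∀ i, L i = 0 := by
      intro i
      have h2 := hind (-L' i) (L i) (by
        simp only [Algebra.smul_def, Finset.mul_sum]
        rw [← Finset.sum_add_distrib]
        apply Finset.sum_eq_zero
        intro j _
        have h3 := congrArg (algebraMap ℂ K) (hc i j)
        simp only [map_mul, map_neg] at h3 ⊢
        linear_combination (pr x j) * h3)
      exact h2.2
    have h4 := hind 1 0 (by simp [hz])
    exact one_ne_zero h4.1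
  · rw [Fin.sum_univ_three] at e1 e2
    intro i j
    fin_cases i <;> fin_cases j <;> simp only [Fin.zero_eta, Fin.mk_one, Fin.reduceFinMk,
        Fin.isValue, Matrix.cons_val_zero, Matrix.cons_val_one,
        Matrix.cons_val]
    · linear_combination L' 2 * e1 - L 2 * e2
    · linear_combination -(L' 1 * e1 - L 1 * e2)
    · linear_combination -(L' 2 * e1 - L 2 * e2)
    · linear_combination L' 0 * e1 - L 0 * e2
    · linear_combination L' 1 * e1 - L 1 * e2
    · linear_combination -(L' 0 * e1 - L 0 * e2)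

/-- A linear form of the flex type. -/
theorem form_eq {M : Fin 3 → ℂ} {i : Fin 3} {k : Fin 5} {c : ℂ} (h0 : M i = 0)
    (h1 : M (i + 1) = c) (h2 : M (i + 2) = c * ζ ^ (k : ℕ)) :
    ∑ i, algebraMap ℂ K (M i) * pr x i = algebraMap ℂ K c * el ζ x (i, k) := by
  have hs : ∑ j, algebraMap ℂ K (M j) * pr x j = algebraMap ℂ K (M i) * pr x i +
      algebraMap ℂ K (M (i + 1)) * pr x (i + 1) + algebraMap ℂ K (M (i + 2)) * pr x (i + 2) := by
    rw [Fin.sum_univ_three]
    fin_cases i
    · rfl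
    · change _ = algebraMap ℂ K (M 1) * pr x 1 + algebraMap ℂ K (M 2) * pr x 2 +
        algebraMap ℂ K (M 0) * pr x 0
      ring
    · change _ = algebraMap ℂ K (M 2) * pr x 2 + algebraMap ℂ K (M 0) * pr x 0 +
        algebraMap ℂ K (M 1) * pr x 1
      ring
  rw [hs, h0, h1, h2, el, map_zero, map_mul]
  ring

theorem pf_Quot (hPole : StmtPole) (hFlex : StmtFlex) (hCod : StmtCod) (hNorm : StmtNorm)
    (hKer : StmtKer) (hDim : StmtDim) : StmtQuot := by
  intro K _ _ ζ x h a w l l' hw hl hl' hind hlw hl'w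
  by_cases hw0 : w = 0
  · exact Or.inl ⟨0, by rw [hw0, map_zero]⟩
  have hh : w ^ 5 ∈ KB x := hw.pow_five h
  have hall : ∀ i ≤ 5, l ^ i * l' ^ (5 - i) * w ^ 5 ∈ AA x 5 := by
    intro i hi
    refine hNorm K ζ x h _ (mul_mem (mul_mem (pow_mem (AA_le_KB hl) _) (pow_mem (AA_le_KB hl') _))
      hh) 5 ?_
    have h1 : (l ^ i * l' ^ (5 - i) * w ^ 5) ^ 5 = ((l * w) ^ 5) ^ i * ((l' * w) ^ 5) ^ (5 - i) := by
      have h2 : w ^ 5 = w ^ i * w ^ (5 - i) := by
        rw [← pow_add]
        congr 1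
        omega
      calc (l ^ i * l' ^ (5 - i) * w ^ 5) ^ 5
          = (l ^ i) ^ 5 * (l' ^ (5 - i)) ^ 5 * (w ^ 5) ^ 5 := by ring
        _ = (l ^ i) ^ 5 * (l' ^ (5 - i)) ^ 5 * (w ^ i * w ^ (5 - i)) ^ 5 := by rw [h2]
        _ = ((l * w) ^ 5) ^ i * ((l' * w) ^ 5) ^ (5 - i) := by
          simp only [mul_pow, ← pow_mul]
          rw [mul_comm i 5, mul_comm (5 - i) 5]
          ring
    rw [h1]
    have h3 := AA_mul (AA_pow hlw i) (AA_pow hl'w (5 - i))
    have h4 : i * 5 + (5 - i) * 5 = 5 * 5 := by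
      rw [← add_mul]
      congr 1
      omega
    rwa [h4] at h3
  rcases hPole K ζ x h l l' hl hl' hind (w ^ 5) hall with ⟨c, hc⟩ | ⟨m', hm', hm'0, hm⟩
  · exact Or.inl (const_of_pow_five hc)
  by_cases hprop : ∃ c : ℂ, m' * w ^ 5 = algebraMap ℂ K c * m'
  · obtain ⟨c, hc⟩ := hprop
    refine Or.inl (const_of_pow_five (c := c) ?_)
    exact mul_left_cancel₀ hm'0 (by rw [hc, mul_comm])
  -- the coefficients of the linear forms
  obtain ⟨L, rfl⟩ := mem_AA_one.1 hl
  obtain ⟨L', rfl⟩ := mem_AA_one.1 hl'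
  obtain ⟨M', rfl⟩ := mem_AA_one.1 hm'
  obtain ⟨M, hM⟩ := mem_AA_one.1 hm
  rw [hM] at hprop
  have hindM : LinearIndependent ℂ
      ![∑ i, algebraMap ℂ K (M i) * pr x i, ∑ i, algebraMap ℂ K (M' i) * pr x i] := by
    rw [LinearIndependent.pair_iff]
    intro s t hst
    have hs : s = 0 := by
      by_contra hs
      apply hprop
      refine ⟨-(t / s), ?_⟩
      have hs' : algebraMap ℂ K s ≠ 0 := by
        rw [Ne, map_eq_zero]; exact hs
      rw [map_neg, map_div₀]
      simp only [Algebra.smul_def] at hst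
      field_simp
      linear_combination hst
    subst hs
    refine ⟨rfl, ?_⟩
    rw [zero_smul, zero_add] at hst
    exact (smul_eq_zero.1 hst).resolve_right hm'0
  obtain ⟨R, hR⟩ := line_of_indep hindM
  obtain ⟨P, hP⟩ := line_of_indep hind
  have hM'0 : M' ≠ 0 := by
    intro h0
    apply hm'0
    rw [h0]
    simp
  -- the first application of hFlex
  obtain ⟨i', k', c', hc', hi0, hi1, hi2⟩ := hFlex ζ h.prim M' P R hM'0 (by
    intro v hv hFv
    have key : ∀ L : Fin 3 → ℂ, (∑ i, algebraMap ℂ K (L i) * pr x i) ^ 5 * w ^ 5 ∈ AA x 5 →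
        (∑ i, L i * v i) ^ 5 * (∑ i, M i * v i) = 0 := by
      intro L hL
      obtain ⟨G, -, hG⟩ := mem_AA.1 hL
      have h1 := eval_eq hKer h (G := lf L ^ 5 * lf M) (H := lf M' * G) (by
        rw [map_mul, map_mul, map_pow, aeval_lf, aeval_lf, aeval_lf, hG, ← hM]
        ring) hFv
      rw [map_mul, map_mul, map_pow, eval_lf, eval_lf, eval_lf, hv, zero_mul] at h1
      exact h1
    by_cases hMv : ∑ i, M i * v i = 0
    · exact Or.inr (hR v hMv hv)
    · left
      have h1 := key L (by simpa using hall 5 le_rfl)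
      have h2 := key L' (by simpa using hall 0 (by norm_num))
      exact hP v (by simpa using (mul_eq_zero.1 h1).resolve_right hMv)
        (by simpa using (mul_eq_zero.1 h2).resolve_right hMv))
  have hm'eq := form_eq (K := K) (x := x) hi0 hi1 hi2
  have hc'K : algebraMap ℂ K c' ≠ 0 := by
    rw [Ne, map_eq_zero]; exact hc'
  rw [hm'eq] at hM
  set σ := w * x (i', k') with hσ
  have hσ0 : σ ≠ 0 := mul_ne_zero hw0 (x_ne h _)
  have hσ5 : algebraMap ℂ K c' * σ ^ 5 = -∑ i, algebraMap ℂ K (M i) * pr x i := by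
    rw [hσ, mul_pow, pow_five h, ← hM]
    ring
  have hσA : σ ^ 5 ∈ AA x 1 := by
    have h1 : σ ^ 5 = algebraMap ℂ K (-c'⁻¹) * ∑ i, algebraMap ℂ K (M i) * pr x i := by
      rw [map_neg, map_inv₀]
      field_simp
      linear_combination hσ5
    rw [h1]
    exact const_mul_mem_AA _ (mem_AA_one.2 ⟨M, rfl⟩)
  obtain ⟨q₀, hq₀⟩ := hCod K ζ x h _ σ 1 (hw.mul (InLine.single (i', k'))) hσ0 hσA
  have hMne : M ≠ 0 := by
    intro h0
    rw [h0] at hM
    have : algebraMap ℂ K c' * el ζ x (i', k') * w ^ 5 = 0 := by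
      rw [hM]; simp
    exact mul_ne_zero (mul_ne_zero hc'K (el_ne h _)) (pow_ne_zero 5 hw0) this
  -- two zeros are proportional
  have hzero : ∀ v v' : Fin 3 → ℂ, v ≠ 0 → ∑ i, M i * v i = 0 → ∑ i, v i ^ 5 = 0 →
      ∑ i, M i * v' i = 0 → ∑ i, v' i ^ 5 = 0 → ∃ t : ℂ, v' = t • v := by
    intro v v' hv hMv hFv hMv' hFv'
    apply proportional hv
    intro i j
    by_contra hij
    obtain ⟨q, hq1, hq2⟩ : ∃ q, q₀ ≤ q ∧ 3 ≤ q := ⟨max q₀ 3, le_max_left _ _, le_max_right _ _⟩
    obtain ⟨W, hWA, hWd, hWb⟩ := hq₀ q hq1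
    obtain ⟨hfd, hdim, -⟩ := hDim K ζ x h
    have := hfd q
    have hdq := hdim q hq2
    -- elements of W vanish at the zeros
    have hvan : ∀ B : MvPolynomial (Fin 3) ℂ, aeval (pr x) B ∈ W → ∀ u : Fin 3 → ℂ,
        ∑ i, M i * u i = 0 → ∑ i, u i ^ 5 = 0 → eval u B = 0 := by
      intro B hB u hMu hFu
      obtain ⟨T, -, hT⟩ := mem_AA.1 (hWb _ hB)
      have h1 := eval_eq hKer h (G := C c' * B ^ 5) (H := -(lf M * T)) (by
        rw [map_neg, map_mul, map_mul, map_pow, aeval_lf, hT, div_pow, algHom_C]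
        have : σ ^ 5 ≠ 0 := pow_ne_zero 5 hσ0
        field_simp
        linear_combination (aeval (pr x) B) ^ 5 * hσ5) hFu
      rw [map_neg, map_mul, map_mul, map_pow, eval_lf, hMu, zero_mul, neg_zero, eval_C] at h1
      simpa using (mul_eq_zero.1 h1).resolve_left hc'
    set Λ : MvPolynomial (Fin 3) ℂ := C (v' j) * X i - C (v' i) * X j with hΛ
    set Λ' : MvPolynomial (Fin 3) ℂ := C (v i) * X j - C (v j) * X i with hΛ'
    have hΛv : eval v Λ ≠ 0 := by
      rw [hΛ]
      simp only [map_sub, map_mul, eval_C, eval_X]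
      intro h0
      apply hij
      linear_combination h0
    have hΛv' : eval v' Λ = 0 := by
      rw [hΛ]
      simp only [map_sub, map_mul, eval_C, eval_X]
      ring
    have hΛ'v : eval v Λ' = 0 := by
      rw [hΛ']
      simp only [map_sub, map_mul, eval_C, eval_X]
      ring
    have hΛ'v' : eval v' Λ' ≠ 0 := by
      rw [hΛ']
      simp only [map_sub, map_mul, eval_C, eval_X]
      intro h0
      apply hij
      linear_combination h0
    have hq0 : q ≠ 0 := by omega
    have hcomb : ∀ s t : ℂ, s • aeval (pr x) (Λ ^ q) + t • aeval (pr x) (Λ' ^ q) ∈ W →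
        s = 0 ∧ t = 0 := by
      intro s t hst
      have h1 : aeval (pr x) (C s * Λ ^ q + C t * Λ' ^ q) ∈ W := by
        rw [map_add, map_mul, map_mul, algHom_C, algHom_C, ← Algebra.smul_def,
          ← Algebra.smul_def]
        exact hst
      have h2 := hvan _ h1 v hMv hFv
      have h3 := hvan _ h1 v' hMv' hFv'
      simp only [map_add, map_mul, map_pow, eval_C] at h2 h3
      rw [hΛ'v, zero_pow hq0, mul_zero, add_zero] at h2
      rw [hΛv', zero_pow hq0, mul_zero, zero_add] at h3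
      exact ⟨(mul_eq_zero.1 h2).resolve_right (pow_ne_zero q hΛv),
        (mul_eq_zero.1 h3).resolve_right (pow_ne_zero q hΛ'v')⟩
    have hli : LinearIndependent ℂ ![aeval (pr x) (Λ ^ q), aeval (pr x) (Λ' ^ q)] := by
      rw [LinearIndependent.pair_iff]
      intro s t hst
      exact hcomb s t (by rw [hst]; exact W.zero_mem)
    have hΛh : Λ.IsHomogeneous 1 :=
      (isHomogeneous_C_mul_X _ _).sub (isHomogeneous_C_mul_X _ _)
    have hΛ'h : Λ'.IsHomogeneous 1 :=
      (isHomogeneous_C_mul_X _ _).sub (isHomogeneous_C_mul_X _ _)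
    set S : Submodule ℂ K := Submodule.span ℂ (Set.range ![aeval (pr x) (Λ ^ q), aeval (pr x) (Λ' ^ q)]) with hS
    have hSr : finrank ℂ S = 2 := by
      rw [hS, finrank_span_eq_card hli, Fintype.card_fin]
    have hSA : S ≤ AA x q := by
      rw [hS, Submodule.span_le]
      rintro _ ⟨k, rfl⟩
      fin_cases k
      · exact mem_AA.2 ⟨Λ ^ q, by simpa using hΛh.pow q, rfl⟩
      · exact mem_AA.2 ⟨Λ' ^ q, by simpa using hΛ'h.pow q, rfl⟩
    have hSfd : FiniteDimensional ℂ S := FiniteDimensional.span_of_finite ℂ (Set.finite_range _)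
    have hWfd : FiniteDimensional ℂ W := Submodule.finiteDimensional_of_le hWA
    have hinf : W ⊓ S = ⊥ := by
      rw [eq_bot_iff]
      rintro f ⟨hfW, hfS⟩
      rw [SetLike.mem_coe, hS, Matrix.range_cons, Matrix.range_cons, Matrix.range_empty,
        Set.union_empty, Set.singleton_union, Submodule.mem_span_pair] at hfS
      obtain ⟨s, t, rfl⟩ := hfS
      obtain ⟨rfl, rfl⟩ := hcomb s t hfW
      simp
    have hsum := Submodule.finrank_sup_add_finrank_inf_eq W S
    rw [hinf, finrank_bot, hSr] at hsum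
    have hle := Submodule.finrank_mono (sup_le hWA hSA)
    omega
  -- the second application of hFlex
  obtain ⟨Q, hQ⟩ : ∃ Q : Fin 3 → ℂ, ∀ v : Fin 3 → ℂ, ∑ i, M i * v i = 0 → ∑ i, v i ^ 5 = 0 →
      ∃ t : ℂ, v = t • Q := by
    by_cases hex : ∃ v : Fin 3 → ℂ, v ≠ 0 ∧ ∑ i, M i * v i = 0 ∧ ∑ i, v i ^ 5 = 0
    · obtain ⟨v, hv, hMv, hFv⟩ := hex
      exact ⟨v, fun v' hMv' hFv' => hzero v v' hv hMv hFv hMv' hFv'⟩
    · refine ⟨0, fun v hMv hFv => ⟨0, ?_⟩⟩
      rw [smul_zero]
      by_contra hv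
      exact hex ⟨v, hv, hMv, hFv⟩
  obtain ⟨i, k, c, hc, hj0, hj1, hj2⟩ := hFlex ζ h.prim M Q Q hMne
    (fun v hMv hFv => Or.inl (hQ v hMv hFv))
  have hmeq := form_eq (K := K) (x := x) hj0 hj1 hj2
  rw [hmeq] at hM
  -- the conclusion
  have hxi := x_ne h (i, k)
  have hxi' := x_ne h (i', k')
  have hfin : (w * x (i', k') / x (i, k)) ^ 5 = algebraMap ℂ K (c / c') := by
    have e1 := pow_five h (i, k)
    have e2 := pow_five h (i', k')
    rw [div_pow, mul_pow, map_div₀, div_eq_div_iff (pow_ne_zero 5 hxi) hc'K, e1, e2]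
    linear_combination -hM
  obtain ⟨c'', hc''⟩ := const_of_pow_five hfin
  have hweq : w = algebraMap ℂ K c'' * (x (i, k) / x (i', k')) := by
    rw [← hc'']
    field_simp
  by_cases hjj : (i, k) = (i', k')
  · left
    refine ⟨c'', ?_⟩
    rw [hweq, hjj, div_self hxi', mul_one]
  · exact Or.inr ⟨(i', k'), (i, k), c'', hjj, hweq⟩

end Pool.Agent.Helper27.Rig
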